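import Pool.Agent.Helper23.MC.Goals1
import Pool.Agent.Helper8.GM.TL
import Pool.Agent.Helper6.RR.BO

/-! # TLA: counting in a class with roughness and divisibility conditions, `y ≤ (log x)^A`

Adaptation of `Pool/Agent/Helper8/GM/TL.lean`. -/

set_option autoImplicit false

open Finset Filter Topology

open scoped Classical

namespace Pool.Agent.Helper85.MC

open Pool.Agent.Helper88
open Pool.Agent.Helper88.GM
open Pool.Agent.Helper88.PP (pr Rg om Sf SS uu vv ee LA VV QQ XX cost nc dd)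
open Pool.Agent.Helper74.PP (sw nu_card crt ap_exists om_lower M_lower)
open Pool.Agent.Helper64.RR (mem_pr prod_swr sum_pr_le card_pr_le fact_est)
open Pool.Agent.Helper8.GM (sum_swg count_eqg final_estg thrg XX_le_XI)
open Pool.Agent.Helper23.MC (SrA StmtTLA)

theorem tla : StmtTLA := by
  intro A
  have hBO : RR.StmtBO := Pool.Agent.Helper6.RR.bo
  obtain ⟨c2, hc2, hom⟩ := om_lower
  obtain ⟨E1, hE1⟩ := thrg c2
  refine ⟨1 / 20, by norm_num, max E1 (A ^ 2 + 1),
    fun E z x y hE' hSr u v Q b hIn B hBz hBk d hd hdD => ?_⟩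
  have hE : E1 ≤ E := le_trans (le_max_left _ _) hE'
  have hEA : A ^ 2 + 1 ≤ E := le_trans (le_max_right _ _) hE'
  clear hE'
  have hE0 := hE1
  obtain ⟨hE2, hE4⟩ := hE0 E hE
  obtain ⟨hz1, hx1, hx2, hy1, hy2, hL3⟩ := hSr
  obtain ⟨hQd, hb, hxuv⟩ := hIn
  have hQ0 : 0 < Q := by omega
  have hE' : (2000 : ℝ) ≤ E := by exact_mod_cast hE2
  have hz0 : (0 : ℝ) < z := lt_of_lt_of_le (Real.exp_pos _) hz1
  have hzE : (E : ℝ) + 1 ≤ z := (Real.add_one_le_exp (E : ℝ)).trans hz1
  have hz3 : 3 ≤ z := by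
    have : (3 : ℝ) ≤ z := by linarith
    exact_mod_cast this
  set l := Real.log (z : ℝ) with hl
  have hl1 : (E : ℝ) ≤ l := by
    rw [hl, Real.le_log_iff_exp_le hz0]
    exact hz1
  have hl3 : 3 ≤ l := by linarith
  have hxz : (z : ℝ) ^ E ≤ x := by exact_mod_cast hx1
  have hx0 : (0 : ℝ) < x := lt_of_lt_of_le (by positivity) hxz
  have hx0' : 0 < x := by exact_mod_cast hx0
  have hX : (E : ℝ) * l ≤ Real.log x := by
    rw [hl, ← Real.log_pow]
    exact Real.log_le_log (by positivity) hxz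
  have hEE : (E : ℝ) * E ≤ E * l := mul_le_mul_of_nonneg_left hl1 (by linarith)
  have hEE2 : 2000 * (E : ℝ) ≤ E * E := mul_le_mul_of_nonneg_right hE' (by linarith)
  have hEl : 2000 * l ≤ (E : ℝ) * l := mul_le_mul_of_nonneg_right hE' (by linarith)
  have hX1 : 1 < Real.log x := by linarith
  have hX0 : 0 < Real.log x := by linarith
  have hlX : l ≤ Real.log x := by linarith
  set L2 := Real.log (Real.log x) with hL2
  have hL20 : 0 ≤ L2 := Real.log_nonneg hX1.le
  have hexpL2 : Real.exp L2 = Real.log x := Real.exp_log hX0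
  have hL2E : (A : ℝ) * L2 < E := by
    by_contra hcon
    push Not at hcon
    have hA2 : (A : ℝ) ^ 2 + 1 ≤ E := by exact_mod_cast hEA
    have h1 : (E : ℝ) ^ 3 ≤ ((A : ℝ) * L2) ^ 3 := pow_le_pow_left₀ (by linarith) hcon 3
    have h2 : ((A : ℝ) * L2) ^ 3 ≤ (A : ℝ) ^ 3 * E := by
      rw [mul_pow]
      exact mul_le_mul_of_nonneg_left hL3 (by positivity)
    have hA0 : (A : ℝ) ≤ (A : ℝ) ^ 2 := by
      have : A ≤ A ^ 2 := Nat.le_self_pow (by norm_num) _
      exact_mod_cast this
    have hA3 : (A : ℝ) ^ 3 ≤ (A : ℝ) ^ 2 * E := by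
      calc (A : ℝ) ^ 3 = (A : ℝ) ^ 2 * A := by ring
        _ ≤ (A : ℝ) ^ 2 * E := mul_le_mul_of_nonneg_left (by linarith) (by positivity)
    have h3 : (A : ℝ) ^ 3 * E ≤ (A : ℝ) ^ 2 * E * E :=
      mul_le_mul_of_nonneg_right hA3 (by linarith)
    have h4 : (A : ℝ) ^ 2 * (E * E) ≤ (E - 1) * (E * E) :=
      mul_le_mul_of_nonneg_right (by linarith) (by positivity)
    have h5 : (E : ℝ) ^ 3 = E * (E * E) := by ring
    have h6 : (A : ℝ) ^ 2 * E * E = (A : ℝ) ^ 2 * (E * E) := by ring
    have h7 : (E - 1) * (E * E) = E * (E * E) - (E : ℝ) * E := by ring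
    have h8 : 0 < (E : ℝ) * E := by positivity
    linarith
  have hyE : (E : ℝ) * E ≤ y := by linarith
  have hyz : (y : ℝ) < z := by
    calc (y : ℝ) ≤ Real.log x ^ A := hy2
      _ = Real.exp (A * L2) := by
        rw [← hexpL2, ← Real.exp_nat_mul]
      _ < Real.exp E := Real.exp_lt_exp.2 hL2E
      _ ≤ z := hz1
  have hyz' : y < z := by exact_mod_cast hyz
  have hkE : B.card ≤ E := le_trans (Nat.le_self_pow (by norm_num) _) hBk
  have hpQ : ∀ p : ℕ, p.Prime → p ∣ Q → p ≤ y := by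
    intro p hp hpd
    have h1 := (Nat.Prime.dvd_primorial_iff hp).1 (hpd.trans hQd)
    have h2 : (⌊Real.log x / 20⌋₊ : ℝ) ≤ Real.log x / 20 := Nat.floor_le (by positivity)
    have h3 : (p : ℝ) ≤ (⌊Real.log x / 20⌋₊ : ℝ) := by exact_mod_cast h1
    have h4 : (p : ℝ) ≤ y := by linarith
    exact_mod_cast h4
  constructor
  · intro hcc
    have hd0 : ∀ i ∈ B, 0 < d i := fun i hi => Nat.pos_of_ne_zero (hd i hi).1.ne_zero
    have hc : ∀ i ∈ B, Nat.Coprime Q (d i) := by
      intro i hi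
      by_contra hcon
      obtain ⟨p, hp, h1, h2⟩ := Nat.Prime.not_coprime_iff_dvd.1 hcon
      have h3 := hpQ p hp h1
      have h4 := (hd i hi).2 p hp h2
      omega
    have hq : ∀ p : ℕ, p.Prime → y < p → p ≤ z → ¬ p ∣ Q * ∏ i ∈ B, d i := by
      intro p hp hyp hpz hdv
      rcases (Nat.Prime.dvd_mul hp).1 hdv with h | h
      · have := hpQ p hp h
        omega
      · obtain ⟨i, hi, h2⟩ := (Nat.Prime.prime hp).exists_mem_finset_dvd h
        have h4 := (hd i hi).2 p hp h2
        omega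
    have huv : u ≤ v := by omega
    obtain ⟨N, a, hcnt, hN⟩ := count_eqg u v Q y z b B d huv hb hd0 hc hcc
    set q := Q * ∏ i ∈ B, d i with hqdef
    set k := B.card with hk
    have hnu : ∀ p ∈ pr y z, ∑ t ∈ range p, sw y z a q B p t =
        ((B.image (fun i => i % p)).card : ℝ) := by
      intro p hp
      obtain ⟨h1, h2, h3⟩ := mem_pr.1 hp
      exact sum_swg y z a q p B hp (hq p h3 h1 h2)
    have hnu0 : ∀ p ∈ pr y z, (0 : ℝ) ≤ ((B.image (fun i => i % p)).card : ℝ) := fun p _ =>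
      Nat.cast_nonneg _
    have hnuk : ∀ p ∈ pr y z, ((B.image (fun i => i % p)).card : ℝ) ≤ k := fun p _ => by
      exact_mod_cast card_image_le
    have hnup : ∀ p ∈ pr y z, ((B.image (fun i => i % p)).card : ℝ) / p ≤ 1 := by
      intro p hp
      obtain ⟨h1, h2, h3⟩ := mem_pr.1 hp
      have h4 : (B.image (fun i => i % p)).card ≤ p := by
        calc (B.image (fun i => i % p)).card ≤ (range p).card := by
              apply card_le_card
              intro t ht
              obtain ⟨i, _, rfl⟩ := mem_image.1 ht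
              exact mem_range.2 (Nat.mod_lt _ h3.pos)
          _ = p := card_range p
      have h5 : (0 : ℝ) < p := by exact_mod_cast h3.pos
      rw [div_le_one h5]
      exact_mod_cast h4
    have hBOw := hBO (pr y z) (sw y z a q B) (E / 16) N (fun p hp => (mem_pr.1 hp).2.2)
      (fun p _ t => by
        rw [sw]
        split_ifs <;> norm_num)
      (fun p _ t => by
        rw [sw, sw]
        refine if_congr ?_ rfl rfl
        have h : ∀ i, p ∣ a + q * (t + p) + i ↔ p ∣ a + q * t + i := fun i => by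
          rw [show a + q * (t + p) + i = (a + q * t + i) + q * p by ring]
          exact (Nat.dvd_add_left (dvd_mul_left p q))
        simp only [h])
    rw [← hcnt] at hBOw
    have e1 : ∏ p ∈ pr y z, (1 - (∑ t ∈ range p, sw y z a q B p t) / p) = gB y z B := by
      rw [gB]
      exact Finset.prod_congr rfl fun p hp => by rw [hnu p hp]
    have e2 : ∑ p ∈ pr y z, (∑ t ∈ range p, sw y z a q B p t) / p ≤
        k * ∑ p ∈ pr y z, 1 / (p : ℝ) := by
      rw [Finset.mul_sum]
      refine Finset.sum_le_sum fun p hp => ?_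
      rw [hnu p hp, mul_one_div]
      exact div_le_div_of_nonneg_right (hnuk p hp) (Nat.cast_nonneg _)
    have e20 : 0 ≤ ∑ p ∈ pr y z, (∑ t ∈ range p, sw y z a q B p t) / p := by
      refine Finset.sum_nonneg fun p hp => ?_
      rw [hnu p hp]
      positivity
    have e3 : ∑ p ∈ pr y z, ∑ t ∈ range p, sw y z a q B p t ≤ (pr y z).card * k := by
      rw [Finset.sum_congr rfl hnu, ← nsmul_eq_mul, ← Finset.sum_const]
      exact Finset.sum_le_sum fun p hp => hnuk p hp
    have e30 : 0 ≤ ∑ p ∈ pr y z, ∑ t ∈ range p, sw y z a q B p t := by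
      rw [Finset.sum_congr rfl hnu]
      exact Finset.sum_nonneg fun p hp => hnu0 p hp
    rw [e1] at hBOw
    have hgB0 : 0 ≤ gB y z B := Finset.prod_nonneg fun p hp => by linarith [hnup p hp]
    have hgB1 : gB y z B ≤ 1 := by
      refine Finset.prod_le_one (fun p hp => by linarith [hnup p hp]) fun p hp => ?_
      have : 0 ≤ ((B.image (fun i => i % p)).card : ℝ) / p := by positivity
      linarith
    have hprod : ∏ i ∈ B, (om y z / (d i : ℝ)) = om y z ^ k / ∏ i ∈ B, (d i : ℝ) := by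
      rw [Finset.prod_div_distrib, Finset.prod_const]
    have hprod1 : ∏ i ∈ B, (1 / (d i : ℝ)) = 1 / ∏ i ∈ B, (d i : ℝ) := by
      rw [Finset.prod_div_distrib, Finset.prod_const_one]
    have hDpos : 0 < ∏ i ∈ B, (d i : ℝ) := Finset.prod_pos fun i hi => by exact_mod_cast hd0 i hi
    have hD : ∏ i ∈ B, (d i : ℝ) ≤ (z : ℝ) ^ (E / 4) := by exact_mod_cast hdD
    have hgoal : XI u v Q * ∏ i ∈ B, (om y z / (d i : ℝ)) =
        XI u v Q / (∏ i ∈ B, (d i : ℝ)) * om y z ^ k := by
      rw [hprod]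
      ring
    have hgoal1 : XI u v Q * (gB y z B * ∏ i ∈ B, (1 / (d i : ℝ))) =
        XI u v Q / (∏ i ∈ B, (d i : ℝ)) * gB y z B := by
      rw [hprod1]
      ring
    rw [hgoal, hgoal1]
    have hzz := hom y z (by omega)
    have hom0 : 0 < om y z := lt_of_lt_of_le (by positivity) hzz.1
    -- the logarithm of the density
    have hW1 : Real.exp (-(Real.log c2 + L2)) ≤ om y z := by
      rw [Real.exp_neg, Real.exp_add, Real.exp_log hc2, hexpL2]
      refine le_trans ?_ hzz.1
      rw [← one_div]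
      apply one_div_le_one_div_of_le (by positivity)
      exact mul_le_mul_of_nonneg_left hlX hc2.le
    have hT1 : ∑ p ∈ pr y z, 1 / (p : ℝ) ≤ Real.log c2 + L2 := by
      have h1 := hW1.trans (sum_pr_le y z)
      have h2 := Real.exp_le_exp.1 h1
      linarith
    have hM : 1 / 2 * Real.exp (65 / 100 * (E * l)) ≤ XI u v Q / ∏ i ∈ B, (d i : ℝ) :=
      (M_lower E z x hE2 hl3 hx1 _ hDpos hD).trans
        (div_le_div_of_nonneg_right (XX_le_XI hQ0 hQd hxuv) hDpos.le)
    refine final_estg E k l (gB y z B) (om y z ^ k) (XI u v Q / ∏ i ∈ B, (d i : ℝ)) N _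
      (∑ p ∈ pr y z, (∑ t ∈ range p, sw y z a q B p t) / p)
      (∑ p ∈ pr y z, ∑ t ∈ range p, sw y z a q B p t) (k * (Real.log c2 + L2)) hE2 hl1
      hgB0 hgB1 hM hN e20
      (e2.trans (mul_le_mul_of_nonneg_left hT1 (Nat.cast_nonneg _)))
      (hE4 L2 hL20 hL3 k hBk) ?_ e30 ?_ hBOw
    · calc Real.exp (-(k * (Real.log c2 + L2))) = Real.exp (-(Real.log c2 + L2)) ^ k := by
            rw [← Real.exp_nat_mul]
            congr 1
            ring
        _ ≤ _ := pow_le_pow_left₀ (Real.exp_pos _).le hW1 k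
    · have h1 : ((pr y z).card : ℝ) ≤ z := by exact_mod_cast card_pr_le y z
      have h2 : (k : ℝ) ≤ E := by exact_mod_cast hkE
      have h3 : ((pr y z).card : ℝ) * k ≤ z * E :=
        mul_le_mul h1 h2 (Nat.cast_nonneg _) hz0.le
      have h4 : Real.exp (2 * l) = (z : ℝ) * z := by
        rw [two_mul, Real.exp_add, hl, Real.exp_log hz0]
      rw [h4]
      have h5 := mul_le_mul_of_nonneg_left hzE hz0.le
      have h6 : (1 : ℝ) ≤ z := by linarith
      linarith
  · intro hcc
    push Not at hcc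
    obtain ⟨i, hi, j, hj, hij, hcop⟩ := hcc
    obtain ⟨p, hp, h1, h2⟩ := Nat.Prime.not_coprime_iff_dvd.1 hcop
    have hzp := (hd i hi).2 p hp h1
    rw [Finset.card_eq_zero, Finset.filter_eq_empty_iff]
    intro n _ hn
    have h3 : p ∣ n + i := h1.trans (hn i hi).1
    have h4 : p ∣ n + j := h2.trans (hn j hj).1
    have hi1 := mem_Icc.1 (hBz hi)
    have hj1 := mem_Icc.1 (hBz hj)
    rcases lt_or_gt_of_ne hij with h | h
    · have h5 : p ∣ (n + j) - (n + i) := Nat.dvd_sub h4 h3
      have h6 := Nat.le_of_dvd (by omega) h5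
      omega
    · have h5 : p ∣ (n + i) - (n + j) := Nat.dvd_sub h3 h4
      have h6 := Nat.le_of_dvd (by omega) h5
      omega

end Pool.Agent.Helper85.MC
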